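import Mathlib
import Pool.Agent.Lib.MP_fee02f_an.SX.Defs

/-!
# Subexponential rapid decay (MP_fee02f_an, Theorem A, version with hulls): definitions

* `HGeo G`: a group with a length, polynomial localisation, a potential of finite sets and hulls
  of finite sets (`GL_n` over a local field, `F^×`, and finite products).
* `HNet`: a net in `G` which is a free `Γ`-set.
* `HCore`: the interface between the abstract part and the geometric part; the loss is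
  `exp (C n / log n)`.
-/

set_option autoImplicit false

namespace HullRD

/-- A group with a length function, exponentially many translates of a ball covering a ball,
localisation with polynomial multiplicity, a potential `pot S` of finite sets (seen from `1`), and
hulls: `hl S y` says that `y` is a hull of `S` seen from `1`. -/
structure HGeo (G : Type*) [Group G] where
  C : ℝ
  one_le : 1 ≤ C
  ℓ : G → ℝ
  nonneg : ∀ g, 0 ≤ ℓ g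
  inv : ∀ g, ℓ g⁻¹ = ℓ g
  mul_le : ∀ g h, ℓ (g * h) ≤ ℓ g + ℓ h
  cover : ∀ R : ℝ, 0 ≤ R → ∃ X : Finset G, (X.card : ℝ) ≤ Real.exp (C * (R + 1)) ∧
    ∀ g, ℓ g ≤ R → ∃ x ∈ X, ℓ (x⁻¹ * g) ≤ C
  loc : ∀ n : ℕ, 1 ≤ n → ∃ S : G → Finset G, (∀ x, ((S x).card : ℝ) ≤ C * (n : ℝ) ^ C) ∧
    (∀ x, ∀ s ∈ S x, ℓ (s⁻¹ * x) ≤ C * n) ∧
    ∀ x y, ℓ (x⁻¹ * y) ≤ n → ∃ s ∈ S x, ∃ t ∈ S y, ℓ (s⁻¹ * t) ≤ C
  pot : Set G → ℝ
  hl : Set G → G → Prop
  pot_nonneg : ∀ S : Set G, 0 ≤ pot S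
  pot_anti : ∀ S T : Set G, T.Finite → S.Nonempty → S ⊆ T → pot T ≤ pot S
  pot_le : ∀ S : Set G, S.Finite → ∀ u ∈ S, pot S ≤ C * (1 + ℓ u)
  hl_ex : ∀ S : Set G, S.Finite → S.Nonempty → ∃ y, hl S y
  hl_near : ∀ (S S' T : Set G) (y y' : G), T.Finite → S.Nonempty → S'.Nonempty → S ⊆ T → S' ⊆ T →
    hl S y → hl S' y' → ℓ (y⁻¹ * y') ≤ C * (1 + (pot S - pot T) + (pot S' - pot T))
  hl_few : ∀ (m : ℕ) (u : Fin (m + 1) → G) (R : ℝ), 0 ≤ R → ∃ U : Finset G,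
    (U.card : ℝ) ≤ C * ((1 + R) * (1 + m)) ^ C ∧ ∀ z y : G, (∀ i, ℓ (z⁻¹ * u i) ≤ R) →
      hl (Set.range fun i => z⁻¹ * u i) y → ∃ y' ∈ U, ℓ (y'⁻¹ * (z * y)) ≤ C

/-- a net in `G` which is a free `Γ`-set -/
structure HNet (Γ Y G : Type*) [Group Γ] [MulAction Γ Y] [Group G] (M : HGeo G) (φ : Γ →* G) where
  c : ℝ
  one_le : 1 ≤ c
  free : ∀ (g : Γ) (y : Y), g • y = y → g = 1
  τ : Y → G
  equiv : ∀ (g : Γ) (y : Y), τ (g • y) = φ g * τ y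
  dense : ∀ g : G, ∃ y : Y, M.ℓ (g⁻¹ * τ y) ≤ c
  growth : ∀ (g : G) (R : ℝ), 0 ≤ R → {y : Y | M.ℓ (g⁻¹ * τ y) ≤ R}.Finite ∧
    ({y : Y | M.ℓ (g⁻¹ * τ y) ≤ R}.ncard : ℝ) ≤ Real.exp (c * (R + 1))

/-- THE INTERFACE between the abstract part and the geometric part -/
def HCore.{u, v, w} : Prop :=
  ∀ (Γ : Type u) (Y : Type v) (G : Type w) [Group Γ] [MulAction Γ Y] [Group G] (M : HGeo G)
    (φ : Γ →* G) (_ : HNet Γ Y G M φ) (E : ℕ → Finset Γ) (c : ℝ),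
    (∀ n, ∀ s ∈ E n, M.ℓ (φ s) ≤ c * n) → (∀ n, ((E n).card : ℝ) ≤ Real.exp (c * n)) →
    ∃ C : ℝ, 0 ≤ C ∧ ∀ n : ℕ, 2 ≤ n → SubExp.OpBd (E n) (Real.exp (C * n / Real.log n))

end HullRD
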